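import Mathlib
import Pool.Agent.Y313.CC.Main

/-!
# Smooth potentials in the Calderon problem with data on disjoint arcs
-/

set_option autoImplicit false

open MeasureTheory Set
open scoped ContDiff
open Pool.Agent.W738.CP Pool.Agent.Y313.CC

namespace Pool.Agent.Results.MP_58debc_an.SmoothContinuum

/-- (1) All the translates `V (t - a)`, supported in `[-b, b]`, of a smooth function
`V : ℝ → [0, 1]` of compact support give smooth potentials of the unit disc with the same Cauchy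
data for `ΓD` in the arc `{re z < - tanh b}` and `ΓN` in the arc `{re z > tanh b}`, and different
translates give different potentials. (2) For all `0 < c < 1` and `ε > 0` there is a continuum of
pairwise different smooth potentials with values in `[0, ε]` which all have the same Cauchy data
for `ΓD` in `{re z < - c}` and `ΓN` in `{re z > c}`. -/
theorem result :
    (∀ (b l r : ℝ) (V : ℝ → ℝ), 0 < b → l ≤ r → ContDiff ℝ ∞ V → (∀ t, 0 ≤ V t) →
      (∀ t, V t ≤ 1) → (∀ t, t ≤ l ∨ r ≤ t → V t = 0) →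
      ∀ a a' : ℝ, -b ≤ l + a → r + a ≤ b → -b ≤ l + a' → r + a' ≤ b →
        ContDiff ℝ ∞ (pot fun t => V (t - a)) ∧
        ((∃ t, V t ≠ 0) → a ≠ a' →
          ¬ (pot (fun t => V (t - a)) =ᵐ[volume.restrict (Metric.ball (0 : ℂ) 1)]
            pot (fun t => V (t - a')))) ∧
        ∀ ΓD ΓN : Set ℂ, ΓD ⊆ {z | ‖z‖ = 1 ∧ z.re < -Real.tanh b} →
          ΓN ⊆ {z | ‖z‖ = 1 ∧ Real.tanh b < z.re} →
          CauchyData (pot fun t => V (t - a)) ΓD ΓN =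
            CauchyData (pot fun t => V (t - a')) ΓD ΓN) ∧
    (∀ c ε : ℝ, 0 < c → c < 1 → 0 < ε → ∃ q : ℝ → ℂ → ℝ,
      (∀ a ∈ Icc (0 : ℝ) 1, ContDiff ℝ ∞ (q a) ∧ ∀ z, 0 ≤ q a z ∧ q a z ≤ ε) ∧
      (∀ a ∈ Icc (0 : ℝ) 1, ∀ a' ∈ Icc (0 : ℝ) 1, a ≠ a' →
        ¬ (q a =ᵐ[volume.restrict (Metric.ball (0 : ℂ) 1)] q a')) ∧
      ∀ a ∈ Icc (0 : ℝ) 1, ∀ a' ∈ Icc (0 : ℝ) 1, ∀ ΓD ΓN : Set ℂ,
        ΓD ⊆ {z | ‖z‖ = 1 ∧ z.re < -c} → ΓN ⊆ {z | ‖z‖ = 1 ∧ c < z.re} →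
        CauchyData (q a) ΓD ΓN = CauchyData (q a') ΓD ΓN) := by
  refine ⟨?_, fun c ε h0 h1 hε => family h0 h1 hε⟩
  intro b l r V hb hlr hV h0 h1 hs a a' ha1 ha2 ha1' ha2'
  refine ⟨?_, ?_, ?_⟩
  · exact pot_smooth (hV.comp (contDiff_id.sub contDiff_const)) (supp2 hs ha1 ha2)
  · rintro ⟨t, ht⟩ hne
    exact pot_ne hV ht (supp2 hs ha1 ha2) (supp2 hs ha1' ha2') hne
  · intro ΓD ΓN hD hN
    exact data_eq hb hlr hV.continuous h0 h1 hs ha1 ha2 ha1' ha2' hD hN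

end Pool.Agent.Results.MP_58debc_an.SmoothContinuum
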